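import Mathlib

set_option autoImplicit false

namespace Pool.Agent.Results.MP_dfec24_co.BaseSix

/-- `S(u)_n = u_n + u_{n+1} mod 2` -/
def S (u : ℕ → ZMod 2) : ℕ → ZMod 2 := fun n => u n + u (n + 1)

/-- generalized Thue-Morse word `t_{b,2}`: digit sum in base `b` modulo `2` -/
def t (b : ℕ) : ℕ → ZMod 2 := fun n => ((Nat.digits b n).sum : ZMod 2)

/-- the factor `v_i v_{i+1} ... v_{i+n-1}` -/
def factor (v : ℕ → ZMod 2) (i n : ℕ) : List (ZMod 2) := (List.range n).map (fun j => v (i + j))

/-- number of distinct palindromic factors (the empty one included) of a finite word -/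
noncomputable def palCount (w : List (ZMod 2)) : ℕ := Set.ncard {p | p <:+: w ∧ p.reverse = p}

/-- an infinite word is rich if each factor of length `n` has `n + 1` palindromic factors -/
def Rich (v : ℕ → ZMod 2) : Prop := ∀ i n, palCount (factor v i n) = n + 1

def pals (w : List (ZMod 2)) : List (List (ZMod 2)) :=
  ((w.tails.flatMap List.inits).filter (fun p => p.reverse = p)).dedup

lemma palCount_le (w : List (ZMod 2)) : palCount w ≤ (pals w).length := by
  unfold palCount
  have h : {p | p <:+: w ∧ p.reverse = p} ⊆ ((pals w).toFinset : Set (List (ZMod 2))) := by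
    rintro p ⟨h1, h2⟩
    rw [List.coe_toFinset]
    simp only [pals, Set.mem_ofPred_eq, List.mem_dedup, List.mem_filter, List.mem_flatMap,
      List.mem_tails, List.mem_inits, decide_eq_true_eq]
    obtain ⟨s, r, hsr⟩ := h1
    exact ⟨⟨p ++ r, ⟨s, by rw [← hsr, List.append_assoc]⟩, ⟨r, rfl⟩⟩, h2⟩
  calc Set.ncard {p | p <:+: w ∧ p.reverse = p}
      ≤ Set.ncard ((pals w).toFinset : Set (List (ZMod 2))) :=
        Set.ncard_le_ncard h (Finset.finite_toSet _)
    _ = (pals w).toFinset.card := Set.ncard_coe_finset _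
    _ ≤ (pals w).length := List.toFinset_card_le _

lemma pals_le : (pals (factor (S^[9] (t 6)) 0 34)).length ≤ 34 := by
  decide +kernel

/-- **Negative answer to Q1 of MP_dfec24_co.** `S^9(t_{6,2})` is not rich: its prefix of length
`34` has fewer than `35` distinct palindromic factors. -/
theorem result : palCount (factor (S^[9] (t 6)) 0 34) < 34 + 1 ∧
    ¬ ∀ b : ℕ, 2 ≤ b → ∀ k : ℕ, 1 ≤ k → Rich (S^[k] (t b)) := by
  have h : palCount (factor (S^[9] (t 6)) 0 34) < 34 + 1 :=
    Nat.lt_succ_of_le ((palCount_le _).trans pals_le)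
  refine ⟨h, fun hall => ?_⟩
  have h2 := hall 6 (by norm_num) 9 (by norm_num) 0 34
  omega

end Pool.Agent.Results.MP_dfec24_co.BaseSix
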